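import Pool.Agent.H73.PHS.Stmts

/-!
# Row EXT of the board `phs`: extension of holomorphic functions over a compact set
-/

set_option autoImplicit false

open Set Filter Topology MeasureTheory Metric

namespace Pool.PHS

theorem EXT_dbar_sub {n : ℕ} (k : Fin n) (h u : Cn n → ℂ) (z : Cn n)
    (hh : DifferentiableAt ℝ h z) (hu : DifferentiableAt ℝ u z) :
    dbar k (fun y => h y - u y) z = dbar k h z - dbar k u z := by
  unfold dbar
  have h1 : fderiv ℝ (fun y => h y - u y) z = fderiv ℝ h z - fderiv ℝ u z := fderiv_fun_sub hh hu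
  rw [h1]
  simp only [ContinuousLinearMap.sub_apply]
  ring

theorem EXT_thm (hCUT : CUTStmt) (hALF : ALFStmt) (hDBR : DBRStmt) (hCRH : CRHStmt)
    (hTHK : THKStmt) (hIDN : IDNStmt) : EXTStmt := by
  intro n hn Ω L g hΩ hb hc hL hLΩ hg
  obtain ⟨χ, N, hχ, hχc, hχs, hN, hLN, hNΩ, hχ1⟩ := hCUT n Ω L hΩ hL hLΩ
  obtain ⟨h, α, hα, hαc, hα0, hαs, hh, hhg⟩ :=
    hALF n Ω L N g χ hΩ hL hLN hN hNΩ hg hχ hχc hχs hχ1
  have h0n : 0 < n := by omega
  have h1n : 1 < n := by omega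
  obtain ⟨u, hu, hdu, R, hR⟩ := hDBR n ⟨0, h0n⟩ ⟨1, h1n⟩ (by simp [Fin.ext_iff]) α hα hαc hαs
  have hud : ∀ z, DifferentiableAt ℝ u z := fun z => (hu.differentiable (by norm_num)) z
  -- `Ω` is contained in a ball
  obtain ⟨M, hM⟩ := hb.subset_closedBall (0 : Cn n)
  have hfar : ∀ z : Cn n, M < ‖z ⟨1, h1n⟩‖ → z ∈ Ωᶜ := by
    intro z hz hzΩ
    have h1 := hM hzΩ
    rw [mem_closedBall_zero_iff] at h1
    exact absurd (lt_of_lt_of_le hz ((norm_le_pi_norm z _).trans h1)) (lt_irrefl _)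
  set R' := max R M with hR'
  set W' : Set (Cn n) := {z | R' < ‖z ⟨1, h1n⟩‖} with hW'
  have hW'o : IsOpen W' := isOpen_lt continuous_const (by fun_prop)
  have hW'n : W'.Nonempty := by
    refine ⟨fun _ => ((|R'| + 1 : ℝ) : ℂ), ?_⟩
    show R' < ‖((|R'| + 1 : ℝ) : ℂ)‖
    rw [Complex.norm_real, Real.norm_eq_abs, abs_of_pos (by positivity)]
    have := le_abs_self R'
    linarith
  have hW'c : W' ⊆ Ωᶜ := fun z hz => hfar z (lt_of_le_of_lt (le_max_right _ _) hz)
  have hne : (Ωᶜ).Nonempty := hW'n.mono hW'c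
  -- the neighbourhood of the complement
  have hdis : Disjoint (tsupport χ) Ωᶜ := disjoint_compl_right_iff_subset.2 hχs
  obtain ⟨ε, hε, hdε⟩ := hdis.exists_thickenings hχc hΩ.isClosed_compl
  have hWt : ∀ z ∈ thickening ε Ωᶜ, z ∉ tsupport χ := fun z hz hz' =>
    disjoint_left.1 hdε (self_subset_thickening hε _ hz') hz
  have huW : DifferentiableOn ℂ u (thickening ε Ωᶜ) := by
    intro z hz
    refine ((hCRH n u z).2 ⟨hud z, fun k => ?_⟩).differentiableWithinAt
    rw [hdu k z]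
    exact hα0 k z (hWt z hz)
  have hu0 : EqOn u (fun _ => 0) (thickening ε Ωᶜ) := by
    refine hIDN n u (fun _ => 0) (thickening ε Ωᶜ) W' isOpen_thickening (hTHK n Ωᶜ ε hε hc) huW
      (differentiableOn_const _) hW'o ?_ hW'n ?_
    · exact hW'c.trans (self_subset_thickening hε _)
    · intro z hz
      exact hR z (lt_of_le_of_lt (le_max_left _ _) hz)
  refine ⟨fun z => h z - u z, ε, hε, ?_, ?_⟩
  · intro z hz
    obtain ⟨h1, h2⟩ := hh z hz
    refine ((hCRH n (fun z => h z - u z) z).2 ⟨h1.sub (hud z), fun k => ?_⟩).differentiableWithinAt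
    rw [EXT_dbar_sub k h u z h1 (hud z), h2 k, hdu k z, sub_self]
  · intro z hz hzε
    have hzW : z ∈ thickening ε Ωᶜ := by
      rw [mem_thickening_iff_infDist_lt hne]
      exact hzε
    have hzt := hWt z hzW
    refine ⟨fun hzL => hzt (subset_tsupport χ ?_), ?_⟩
    · rw [Function.mem_support, hχ1 z (hLN hzL)]
      exact one_ne_zero
    · show h z - u z = g z
      rw [hu0 hzW, hhg z hz hzt, sub_zero]

end Pool.PHS
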